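import Mathlib
import Pool.Agent.Run7.h474.HTW3

/-!
# Ramsey for pairs is not uniformly reducible to Hindman for sums of exactly two elements and any
number of colours

For all `j ≥ 2`, the restriction of Ramsey's theorem for pairs and `j` colours to the colourings in
which all pairs above some number have the colour `0` is not Weihrauch reducible to Hindman's theorem
for sums of exactly two elements and finitely many colours, not even with continuous instead of
computable functionals, and not even if the number of colours may depend on the instance of Ramsey's
theorem. This restriction is Weihrauch equivalent to the problem of finding a bound for a given finite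
set (closed choice on the natural numbers). A fortiori stable Ramsey for pairs and `RT^2_j` are not
reducible to `HT^{=2}_k`, for all `j ≥ 2` and all `k`.

Proof idea. Code finite sets `Q` by numbers `σ` (binary digits), let `φ σ s` be the colour of `s` in the
colouring computed from `Q`, and fix an idempotent ultrafilter `p` on the natural numbers. (The number
`k` of colours is the same for all `Q` with large least element, because the functional is continuous
at the empty set.) For a word `w` of coefficients let `T w` be the colour of `σ + η_1 + η_2 + ...` and
`s + w_1 g_1 + w_2 g_2 + ...` in the limit along `p` for `η_1, g_1, η_2, g_2, ...`, followed by a last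
new element of `Q` and a last block `4 g`. By the pigeonhole principle two of the `k + 1` words
`2^{2l} 4^{k+1-l}` have the same type. Because `p` is idempotent, a block `2 g` may be split into
`2 g + 2 g'` while `4 g` and `4 g'` are used in the other two words, and this gives numbers `A`, `A'`
such that `2 A`, `A + A'` followed by one more block, and `2 A'` have the same type `i` (`core`). Now
there is a solution `{A + 4 g_l}` of colour `i` for `Q`. A finite part of it computes a bound for `Q`.
Then a new large element is added to `Q`, and the finite part is extended to a solution by elements
`A' + 4 g'_l`, a contradiction (`no_redN`).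
-/

set_option autoImplicit false

namespace Pool.Agent.Results.MP_6f9266_lc.NoReductionAnyColours

/-! ### Definitions used in the statement -/

/-- The colouring `f` of the pairs `a < b` with `j` colours is almost zero: all pairs above some
number have the colour `0`. -/
def AlmostZero {j : ℕ} (f : ℕ → ℕ → Fin j) : Prop :=
  ∃ N, ∀ a b, N ≤ a → a < b → (f a b : ℕ) = 0

/-- `H` (given by its characteristic function) is an infinite set all of whose pairs `a < b` have
the same colour. -/
def RTSol {j : ℕ} (f : ℕ → ℕ → Fin j) (H : ℕ → Bool) : Prop :=
  {n | H n = true}.Infinite ∧ ∃ v, ∀ a b, a < b → H a = true → H b = true → f a b = v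

/-- `X` (given by its characteristic function) is an infinite set such that all sums of exactly
two (distinct) elements of `X` have the same colour. -/
def HTSol (c : ℕ → ℕ) (X : ℕ → Bool) : Prop :=
  {n | X n = true}.Infinite ∧ ∃ v, ∀ x y, x < y → X x = true → X y = true → c (x + y) = v

/-! ### The result -/

/-- For all `j ≥ 2`: there are no `Φ` and `Ψ`, continuous on the relevant domains, such that
`Φ f = (k, c)` with a colouring `c` of the natural numbers with the colours `0, ..., k - 1`, for every
almost zero `f` (here `k` may depend on `f`), and `Ψ (f, X)` is an infinite homogeneous set for `f`,
for every infinite set `X` all of whose sums of exactly two elements have the same colour `c`. -/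
theorem result (j : ℕ) (hj : 2 ≤ j) :
    ¬ ∃ (Φ : (ℕ → ℕ → Fin j) → ℕ × (ℕ → ℕ))
        (Ψ : (ℕ → ℕ → Fin j) × (ℕ → Bool) → (ℕ → Bool)),
      ContinuousOn Φ {f | AlmostZero f} ∧
      (∀ f, AlmostZero f → ∀ s, (Φ f).2 s < (Φ f).1) ∧
      ContinuousOn Ψ {p | AlmostZero p.1 ∧ HTSol (Φ p.1).2 p.2} ∧
      ∀ f X, AlmostZero f → HTSol (Φ f).2 X → RTSol f (Ψ (f, X)) := by
  rintro ⟨Φ, Ψ, h1, hk, h2, h3⟩
  exact Run7.h474.HTW.no_redN hj h1 hk h2 h3

end Pool.Agent.Results.MP_6f9266_lc.NoReductionAnyColours
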