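import Mathlib
import Pool.Agent.Run7.h628.Dom

/-!
# Ramsey's theorem for `n`-sets reduces omnisciently to Hindman's theorem for exact `m`-sums

For every colouring `e` of the finite sets with finitely many colours there is a 7-colouring `c` of
the natural numbers such that for all `m ≥ 2` every infinite set `X` whose sums of exactly `m`
elements all have the same `c`-colour computes, together with `e`, infinite sets which are
homogeneous for `e` on `n`-sets, for all `n`.

Proof idea. Let `T` be a sparse set of thresholds. Let `M` be the largest threshold below `s`, and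
let `u` be the signed residue of `s` modulo `M`. The colour of `s` is given by the position of `u / M`
on the circle (so that `u` and `2 u - δ` have different colours unless `u` is small) and by the
parity of the length of the chain `s, |u|, ...` of iterated residues. If the sums `b + x + y`
of elements of `X` are monochromatic, then there cannot be two elements `z < z'` of `X` with
`M ≤ z`, `z ≡ z'` modulo `M` and `b + z + z'` below the next threshold, except for finitely many `M`:
comparison with `b + x + z` shows that the residue of `z` is bounded, and two thresholds with the same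
residue are excluded by the parity. So `X` has at most `M` elements in `[M, (M' - b) / 2)`, where `M'`
is the next threshold, and `X` computes a function which dominates any function given in advance.
-/

set_option autoImplicit false

namespace Pool.Agent.Results.MP_6f9266_lc.OmniscientReduction

/-! ### Definitions used in the statement -/

open Classical in
/-- The set `A` as an oracle: its characteristic function. -/
noncomputable def setOracle (A : Set ℕ) : ℕ →. ℕ := fun n => Part.some (if n ∈ A then 1 else 0)

/-- The colouring `e` of the finite sets as an oracle: the code of a list is mapped to the colour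
of the set of its entries. -/
def colOracle {k : ℕ} (e : Finset ℕ → Fin k) : ℕ →. ℕ :=
  fun s => Part.some (e (Denumerable.ofNat (List ℕ) s).toFinset).val

/-- The sums of exactly `m` elements of `X` all have the same colour: `X` is a solution of the
instance `c` of Hindman's theorem for sums of exactly `m` terms, provided that `X` is infinite. -/
def MonoSums {r : ℕ} (c : ℕ → Fin r) (m : ℕ) (X : Set ℕ) : Prop :=
  ∃ i, ∀ F : Finset ℕ, (F : Set ℕ) ⊆ X → F.card = m → c (∑ x ∈ F, x) = i

/-- All the `n`-element subsets of `H` have the same colour. -/
def Homog {k : ℕ} (e : Finset ℕ → Fin k) (n : ℕ) (H : Set ℕ) : Prop :=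
  ∃ i, ∀ F : Finset ℕ, (F : Set ℕ) ⊆ H → F.card = n → e F = i

/-! ### The result -/

open Run7.h628

open Pool.Agent.Helper67.BN (ci_comp ci_pair ci_nat_rec ci_comp₂ ci_compC ci_fst ci_snd ball
  ball_iff nsum nsum_eq ball_comp nsum_comp cand cor cnot ceqN ceqB clt cle cadd csub cmul cconst
  ccond ind cind cpair cunl cunr ind_true ind_false nsum_ind)

theorem ci_set {O : Set (ℕ →. ℕ)} {A : Set ℕ} (h : setOracle A ∈ O) :
    by classical exact ComputableIn O fun n => decide (n ∈ A) := by
  classical
  have h1 : ComputableIn O fun n : ℕ => (if n ∈ A then 1 else 0 : ℕ) :=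
    RecursiveIn.oracle (O := O) _ h
  refine ci_congr (ceqN h1 (cconst 1)) fun n => ?_
  by_cases h : n ∈ A <;> simp [h]

theorem ci_col {O : Set (ℕ →. ℕ)} {k : ℕ} {e : Finset ℕ → Fin k} (h : colOracle e ∈ O) :
    ComputableIn O fun L : List ℕ => (e L.toFinset).val := by
  have h1 : ComputableIn O fun s : ℕ => (e (Denumerable.ofNat (List ℕ) s).toFinset).val :=
    RecursiveIn.oracle (O := O) _ h
  have h2 := ci_comp (f := fun s : ℕ => (e (Denumerable.ofNat (List ℕ) s).toFinset).val) h1
    (Primrec.encode (α := List ℕ)).computableIn
  refine ci_congr h2 fun L => ?_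
  simp

open Classical in
/-- `RT^n_k` is reducible to `HT^{=m}_7`, for instances of `HT^{=m}_7` which need not be
computable from the instance of `RT^n_k`. -/
theorem result (k : ℕ) (e : Finset ℕ → Fin k) :
    ∃ c : ℕ → Fin 7, ∀ m, 2 ≤ m → ∀ X : Set ℕ, X.Infinite → MonoSums c m X →
      ∀ n, ∃ H : Set ℕ, H.Infinite ∧ Homog e n H ∧
        ComputableIn {setOracle X, colOracle e} (fun s => decide (s ∈ H)) := by
  choose g hg using fun n => rt_mod n fun L : List ℕ => e L.toFinset
  set G : ℕ → ℕ := fun m => ∑ n ∈ Finset.range (m + 1), g n m with hG
  refine ⟨fun s => ⟨colFor G s, col_lt _ _⟩, fun m hm X hX hmono n => ?_⟩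
  obtain ⟨i, hi⟩ := hmono
  obtain ⟨b, N0, h1, h2⟩ := shift_sums (C := colFor G) hm hX (κ := i.val)
    (fun F hF hc => congrArg Fin.val (hi F hF hc))
  have hXc := ci_set (O := {setOracle X, colOracle e}) (A := X) (by simp)
  have hXc' : ComputableIn {setOracle X, colOracle e}
      fun s => decide (s ∈ {x | x ∈ X ∧ N0 ≤ x}) := by
    refine ci_congr (cand hXc (cle (cconst N0) (ComputableIn.id (α := ℕ)))) fun s => ?_
    simp [Bool.decide_and]
  obtain ⟨h, hh1, m0, hh2⟩ := dominates G h1 h2 (O := {setOracle X, colOracle e})
    (ci_congr hXc' fun s => by simp)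
  obtain ⟨H, hH1, hH2, j, hj⟩ := hg n {setOracle X, colOracle e} h
    ⟨max n m0, fun m hm => by
      have h3 : g n m ≤ G m := Finset.single_le_sum (f := fun n => g n m)
        (fun _ _ => Nat.zero_le _) (Finset.mem_range.2 (by omega))
      exact h3.trans (hh2 m (by omega))⟩ hh1 (ci_col (by simp))
  refine ⟨Set.range H, Set.infinite_range_of_injective hH1.injective, ⟨j, fun F hF hcard => ?_⟩,
    ?_⟩
  · -- homogeneity
    obtain ⟨I, hI⟩ : ∃ I : Finset ℕ, I.image H = F := by
      rw [← Set.image_univ] at hF
      obtain ⟨I, -, hI⟩ := Finset.subset_set_image_iff.1 hF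
      exact ⟨I, hI⟩
    have hIc : I.card = n := by
      rw [← hcard, ← hI, Finset.card_image_of_injective _ hH1.injective]
    have h3 := hj (I.sort (· ≤ ·)) (I.sortedLT_sort.pairwise) (by simp [hIc])
    rw [← h3]
    congr 1
    rw [← hI]
    ext x
    simp
  · -- computability
    have h3 : ComputableIn {setOracle X, colOracle e}
        fun s : ℕ => !(ball (s + 1) fun i => !(decide (H i = s))) :=
      cnot (ball_comp (cadd (ComputableIn.id (α := ℕ)) (cconst 1))
        (cnot (ceqN (ci_comp hH2 ci_snd) ci_fst)))
    refine ci_congr h3 fun s => ?_
    by_cases hs : s ∈ Set.range H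
    · have : ball (s + 1) (fun i => !(decide (H i = s))) = false := by
        rw [← Bool.not_eq_true, ball_iff]
        obtain ⟨i, rfl⟩ := hs
        intro hcon
        have := hcon i (Nat.lt_succ_of_le (hH1.id_le i))
        simp at this
      rw [this]
      simp only [hs, decide_true, Bool.not_false]
    · have : ball (s + 1) (fun i => !(decide (H i = s))) = true := by
        rw [ball_iff]
        intro i _
        have : H i ≠ s := fun h => hs ⟨i, h⟩
        simp [this]
      rw [this]
      simp only [hs, decide_false, Bool.not_true]

end Pool.Agent.Results.MP_6f9266_lc.OmniscientReduction
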