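import Mathlib
import Pool.Agent.Run7.h628.Lim

/-!
# Colourings of two partial sums, and limit computable colourings of exact sums

For every function `f` there is a colouring `d` of pairs of numbers with 7 colours which is computable
from `f`, such that `d s t` converges for `t → ∞`, and such that, for all `m ≥ 2`, every infinite set `X`
for which the limit colour is constant on the sums `s` of exactly `m` elements of `X` computes,
together with `f`, the range of `f`.

In particular, if `d (x₁ + ... + xₘ) (xₘ₊₁ + ... + xₙ)` has the same value for all
`x₁ < ... < xₙ` in `X`, where `2 ≤ m < n`, then `X` computes, together with `f`, the range of `f`.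

Proof idea. The colouring is the one of `Pool.Agent.Run7.h628.Comb`, where the thresholds are
the true stages `t` of the enumeration `f` (made injective), those with `f t < f s` for all
`s > t`; at stage `t` the thresholds are approximated. By the gap theorem, `X` computes a function
`F` such that there is a true stage in `(m, F m]` for almost all `m`, and every such function
computes the range of `f`.
-/

set_option autoImplicit false

namespace Pool.Agent.Results.MP_6f9266_lc.TwoPartialSums

/-! ### Definitions used in the statement -/

open Classical in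
/-- The set `A` as an oracle: its characteristic function. -/
noncomputable def setOracle (A : Set ℕ) : ℕ →. ℕ := fun n => Part.some (if n ∈ A then 1 else 0)

/-- The function `f` as an oracle. -/
def funOracle (f : ℕ → ℕ) : ℕ →. ℕ := fun n => Part.some (f n)

/-! ### The result -/

open Run7.h628

open Pool.Agent.Helper67.BN (ci_comp ci_pair ci_fst ci_snd cand cle cconst ceqN)

open Filter in
open Classical in
/-- There is an instance `d` of `RT^n_7` which is computable from `f` and depends only on two
partial sums, such that every solution computes the range of `f`. The hypothesis on `X` is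
stated in its weakest form: for some colour `i` and for all sums `s` of exactly `m` elements of `X`
the colour `d s t` is `i` for infinitely many `t`. -/
theorem result (f : ℕ → ℕ) :
    ∃ d : ℕ → ℕ → Fin 7, ComputableIn {funOracle f} (fun p : ℕ × ℕ => d p.1 p.2) ∧
      (∀ s, ∃ i, ∀ᶠ t in atTop, d s t = i) ∧
      ∀ m, 2 ≤ m → ∀ X : Set ℕ, X.Infinite →
        (∃ i, ∀ F : Finset ℕ, (F : Set ℕ) ⊆ X → F.card = m →
          ∃ᶠ t in atTop, d (∑ x ∈ F, x) t = i) →
        ComputableIn {setOracle X, funOracle f} (fun v => decide (v ∈ Set.range f)) := by
  have hfun : ∀ O : Set (ℕ →. ℕ), funOracle f ∈ O → ComputableIn O f := fun O h =>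
    RecursiveIn.oracle (O := O) _ h
  refine ⟨fun s t => ⟨dcol (inj f) s t, col_lt _ _⟩, ?_, fun s => ?_, fun m hm X hX hmono => ?_⟩
  · exact ci_fin (ci_dcol (ci_inj (hfun {funOracle f} rfl)))
  · obtain ⟨L, hL⟩ := dcol_lim (inj f) s
    refine ⟨⟨col (truL (inj f)) s, col_lt _ _⟩, eventually_atTop.2 ⟨L, fun t ht => ?_⟩⟩
    exact Fin.ext (hL t ht)
  · obtain ⟨i, hi⟩ := hmono
    have hlim : ∀ F : Finset ℕ, (F : Set ℕ) ⊆ X → F.card = m →
        col (truL (inj f)) (∑ x ∈ F, x) = i.val := by
      intro F hF hc
      obtain ⟨L, hL⟩ := dcol_lim (inj f) (∑ x ∈ F, x)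
      obtain ⟨t, ht, h2⟩ := frequently_atTop.1 (hi F hF hc) L
      rw [← hL t ht, ← h2]
    obtain ⟨b, N0, h1, h2⟩ := shift_sums (C := col (truL (inj f))) hm hX hlim
    have hXc : ComputableIn {setOracle X, funOracle f} fun n => decide (n ∈ X) := by
      have h3 : ComputableIn {setOracle X, funOracle f} fun n : ℕ => (if n ∈ X then 1 else 0 : ℕ) :=
        RecursiveIn.oracle (setOracle X) (by simp)
      refine ci_congr (ceqN h3 (cconst 1)) fun n => ?_
      by_cases h : n ∈ X <;> simp [h]
    have hXc' : ComputableIn {setOracle X, funOracle f}
        fun s => decide (s ∈ {x | x ∈ X ∧ N0 ≤ x}) := by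
      refine ci_congr (cand hXc (cle (cconst N0) (ComputableIn.id (α := ℕ)))) fun s => ?_
      simp [Bool.decide_and]
    obtain ⟨F, hF, m0, hm0⟩ := exists_jump (O := {setOracle X, funOracle f})
      (truL_inf (inj_injective f)) h1 h2 (ci_congr hXc' fun s => by simp)
    exact range_of_jump (hfun _ (by simp)) hF hm0

end Pool.Agent.Results.MP_6f9266_lc.TwoPartialSums
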